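import Mathlib

set_option autoImplicit false

/-! # Zones for pairs of commuting interval maps: definition -/

namespace Pool.Agent.MP4545.ST

open Set

/-- `IsZone α β p q`: the map `α` is expanding at the ends of `[p,q]` (`α(p) < p < q < α(q)`), `β`
maps the fixed points of `α` in `[p,q]` into `(p,q)`, and if `t` is `p` or `q` or a point of
`α([p,q])` outside `(p,q)`, then `β(t)` does not lie between two fixed points of `α` in `[p,q]`. -/
def IsZone {X : Type*} [LinearOrder X] (α β : X → X) (p q : X) : Prop :=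
  p < q ∧ α p < p ∧ q < α q ∧
  (∀ x ∈ Icc p q, α x = x → β x ∈ Ioo p q) ∧
  (∀ t, t = p ∨ t = q ∨ (t ∈ α '' Icc p q ∧ t ∉ Ioo p q) →
    ∀ x ∈ Icc p q, ∀ y ∈ Icc p q, α x = x → α y = y → ¬ (x ≤ β t ∧ β t ≤ y))

end Pool.Agent.MP4545.ST
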