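import Mathlib
import Pool.Agent.Work.MP_4545a8_an.ST.Defs

set_option autoImplicit false

/-! # Zones for pairs of commuting interval maps: proofs -/

namespace Pool.Agent.MP4545.ST

open Set Function Topology Filter Polynomial

variable {a b : ℝ}

private lemma ivt {f : Icc a b → ℝ} (hf : Continuous f) {p q : Icc a b} (hpq : p ≤ q)
    (h1 : f p ≤ 0) (h2 : 0 ≤ f q) : ∃ s ∈ Icc p q, f s = 0 := by
  have hab : a ≤ b := p.2.1.trans p.2.2
  have hF : Continuous (IccExtend hab f) := hf.Icc_extend'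
  have hp : IccExtend hab f p = f p := IccExtend_val hab f p
  have hq : IccExtend hab f q = f q := IccExtend_val hab f q
  obtain ⟨s, hs, hs0⟩ := intermediate_value_Icc (show (p : ℝ) ≤ q from hpq) hF.continuousOn
    (show (0 : ℝ) ∈ Icc (IccExtend hab f p) (IccExtend hab f q) by rw [hp, hq]; exact ⟨h1, h2⟩)
  have hsm : s ∈ Icc a b := ⟨p.2.1.trans hs.1, hs.2.trans q.2.2⟩
  refine ⟨⟨s, hsm⟩, ⟨hs.1, hs.2⟩, ?_⟩
  rw [← hs0, IccExtend_of_mem hab f hsm]

/-- The right end. -/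
private lemma right_end {α β : Icc a b → Icc a b} (hα : Continuous α) (hβ : Continuous β)
    (hc : ∀ x, α (β x) = β (α x)) {p q m x : Icc a b}
    (hq : q < α q)
    (hx : α x = x) (hxq : x ≤ q)
    (hgap : ∀ t, x < t → t ≤ q → α t ≠ t) (hpm : p ≤ m) (hm : α m = m) (hmx : m ≤ x)
    (hex : ∀ t, t = q ∨ (t ∈ α '' Icc p q ∧ q < t) → ¬ (m ≤ β t ∧ β t ≤ x))
    (h1 : m ≤ β x) (h2 : β x ≤ x) : β x = m ∨ β x = x := by
  by_contra hne
  push Not at hne
  have h1' : m < β x := lt_of_le_of_ne h1 (Ne.symm hne.1)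
  have h2' : β x < x := lt_of_le_of_ne h2 hne.2
  -- the gap is expanding
  have hexp : ∀ t, x < t → t ≤ q → t < α t := by
    intro t ht htq
    by_contra hle
    push Not at hle
    have hlt : α t < t := lt_of_le_of_ne hle (hgap t ht htq)
    obtain ⟨s, hs, hs0⟩ := ivt (f := fun s : Icc a b => ((α s : ℝ) - s)) (by fun_prop) htq
      (by have : ((α t : Icc a b) : ℝ) < t := hlt
          linarith)
      (by have : ((q : Icc a b) : ℝ) < α q := hq
          linarith)
    have hs1 : α s = s := by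
      apply Subtype.ext
      have : ((α s : Icc a b) : ℝ) - s = 0 := hs0
      linarith
    exact hgap s (lt_of_lt_of_le ht hs.1) hs.2 hs1
  -- β reaches m or x in (x, q]
  have key : ∀ e : Icc a b, α e = e → m ≤ e → e ≤ x → β x ≠ e →
      (∃ t, x ≤ t ∧ t ≤ q ∧ β t = e) → False := by
    rintro e he hme hex' hxe ⟨t, hxt, htq, hte⟩
    have hS : IsCompact {t : Icc a b | t ∈ Icc x q ∧ β t = e} := by
      apply IsClosed.isCompact
      exact isClosed_Icc.inter (isClosed_eq hβ continuous_const)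
    have hSne : {t : Icc a b | t ∈ Icc x q ∧ β t = e}.Nonempty := ⟨t, ⟨hxt, htq⟩, hte⟩
    obtain ⟨s, hs, hsmax⟩ := hS.exists_isMaxOn hSne continuous_id.continuousOn
    have hxs : x < s := by
      rcases eq_or_lt_of_le hs.1.1 with h | h
      · exfalso; apply hxe; rw [h]; exact hs.2
      · exact h
    have h3 := hexp s hxs hs.1.2
    have h4 : β (α s) = e := by rw [← hc, hs.2, he]
    rcases le_or_gt (α s) q with h5 | h5
    · have : α s ≤ s := hsmax (show α s ∈ {t : Icc a b | t ∈ Icc x q ∧ β t = e} from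
        ⟨⟨(hxs.trans h3).le, h5⟩, h4⟩)
      exact absurd this (not_le.mpr h3)
    · refine hex (α s) (Or.inr ⟨⟨s, ⟨hpm.trans (hmx.trans hxs.le), hs.1.2⟩, rfl⟩, h5⟩) ?_
      rw [h4]; exact ⟨hme, hex'⟩
  have hqo := hex q (Or.inl rfl)
  rcases lt_or_ge (β q) m with h6 | h6
  · apply key m hm le_rfl hmx (Ne.symm (ne_of_lt h1'))
    obtain ⟨t, ht, hte⟩ := ivt (f := fun s : Icc a b => ((m : ℝ) - β s)) (by fun_prop) hxq
      (by have : (m : ℝ) ≤ β x := h1
          linarith)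
      (by have : (β q : ℝ) < m := h6
          linarith)
    exact ⟨t, ht.1, ht.2, Subtype.ext (by linarith)⟩
  · have h7 : x < β q := by
      by_contra h8
      push Not at h8
      exact hqo ⟨h6, h8⟩
    apply key x hx hmx le_rfl (ne_of_lt h2')
    obtain ⟨t, ht, hte⟩ := ivt (f := fun s : Icc a b => ((β s : ℝ) - x)) (by fun_prop) hxq
      (by have : (β x : ℝ) ≤ x := h2
          linarith)
      (by have : (x : ℝ) < β q := h7
          linarith)
    exact ⟨t, ht.1, ht.2, Subtype.ext (by linarith)⟩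

/-- The left end. -/
private lemma left_end {α β : Icc a b → Icc a b} (hα : Continuous α) (hβ : Continuous β)
    (hc : ∀ x, α (β x) = β (α x)) {p q x M : Icc a b}
    (hp : α p < p)
    (hx : α x = x) (hpx : p ≤ x)
    (hgap : ∀ t, t < x → p ≤ t → α t ≠ t) (hMq : M ≤ q) (hM : α M = M) (hxM : x ≤ M)
    (hex : ∀ t, t = p ∨ (t ∈ α '' Icc p q ∧ t < p) → ¬ (x ≤ β t ∧ β t ≤ M))
    (h1 : x ≤ β x) (h2 : β x ≤ M) : β x = x ∨ β x = M := by
  by_contra hne
  push Not at hne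
  have h1' : x < β x := lt_of_le_of_ne h1 (Ne.symm hne.1)
  have h2' : β x < M := lt_of_le_of_ne h2 hne.2
  have hexp : ∀ t, t < x → p ≤ t → α t < t := by
    intro t ht htp
    by_contra hle
    push Not at hle
    have hlt : t < α t := lt_of_le_of_ne hle (Ne.symm (hgap t ht htp))
    obtain ⟨s, hs, hs0⟩ := ivt (f := fun s : Icc a b => ((α s : ℝ) - s)) (by fun_prop) htp
      (by have : ((α p : Icc a b) : ℝ) < p := hp
          linarith)
      (by have : (t : ℝ) < α t := hlt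
          linarith)
    have hs1 : α s = s := by
      apply Subtype.ext
      have : ((α s : Icc a b) : ℝ) - s = 0 := hs0
      linarith
    exact hgap s (lt_of_le_of_lt hs.2 ht) hs.1 hs1
  have key : ∀ e : Icc a b, α e = e → x ≤ e → e ≤ M → β x ≠ e →
      (∃ t, p ≤ t ∧ t ≤ x ∧ β t = e) → False := by
    rintro e he hme hex' hxe ⟨t, hpt, htx, hte⟩
    have hS : IsCompact {t : Icc a b | t ∈ Icc p x ∧ β t = e} := by
      apply IsClosed.isCompact
      exact isClosed_Icc.inter (isClosed_eq hβ continuous_const)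
    have hSne : {t : Icc a b | t ∈ Icc p x ∧ β t = e}.Nonempty := ⟨t, ⟨hpt, htx⟩, hte⟩
    obtain ⟨s, hs, hsmin⟩ := hS.exists_isMinOn hSne continuous_id.continuousOn
    have hxs : s < x := by
      rcases eq_or_lt_of_le hs.1.2 with h | h
      · exfalso; apply hxe; rw [← h]; exact hs.2
      · exact h
    have h3 := hexp s hxs hs.1.1
    have h4 : β (α s) = e := by rw [← hc, hs.2, he]
    rcases le_or_gt p (α s) with h5 | h5
    · have : s ≤ α s := hsmin (show α s ∈ {t : Icc a b | t ∈ Icc p x ∧ β t = e} from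
        ⟨⟨h5, (h3.trans hxs).le⟩, h4⟩)
      exact absurd this (not_le.mpr h3)
    · refine hex (α s) (Or.inr ⟨⟨s, ⟨hs.1.1, hxs.le.trans (hxM.trans hMq)⟩, rfl⟩, h5⟩) ?_
      rw [h4]; exact ⟨hme, hex'⟩
  have hqo := hex p (Or.inl rfl)
  rcases lt_or_ge (β p) x with h6 | h6
  · apply key x hx le_rfl hxM (Ne.symm (ne_of_lt h1'))
    obtain ⟨t, ht, hte⟩ := ivt (f := fun s : Icc a b => ((β s : ℝ) - x)) (by fun_prop) hpx
      (by have : (β p : ℝ) < x := h6
          linarith)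
      (by have : (x : ℝ) ≤ β x := h1
          linarith)
    exact ⟨t, ht.1, ht.2, Subtype.ext (by linarith)⟩
  · have h7 : M < β p := by
      by_contra h8
      push Not at h8
      exact hqo ⟨h6, h8⟩
    apply key M hM hxM le_rfl (ne_of_lt h2')
    obtain ⟨t, ht, hte⟩ := ivt (f := fun s : Icc a b => ((M : ℝ) - β s)) (by fun_prop) hpx
      (by have : (M : ℝ) < β p := h7
          linarith)
      (by have : (β x : ℝ) ≤ M := h2
          linarith)
    exact ⟨t, ht.1, ht.2, Subtype.ext (by linarith)⟩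

/-- The criterion. -/
private lemma criterion {α β : Icc a b → Icc a b} (hα : Continuous α) (hβ : Continuous β)
    (hc : ∀ x, α (β x) = β (α x)) {p q : Icc a b} (hz : IsZone α β p q) :
    ∃ x ∈ Icc p q, α x = x ∧ β (β x) = x := by
  obtain ⟨hpq, hp, hq, hin, hex⟩ := hz
  have hAc : IsCompact {x : Icc a b | x ∈ Icc p q ∧ α x = x} := by
    apply IsClosed.isCompact
    exact isClosed_Icc.inter (isClosed_eq hα continuous_id)
  have hAne : {x : Icc a b | x ∈ Icc p q ∧ α x = x}.Nonempty := by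
    obtain ⟨s, hs, hs0⟩ := ivt (f := fun s : Icc a b => ((α s : ℝ) - s)) (by fun_prop) hpq.le
      (by have : ((α p : Icc a b) : ℝ) < p := hp
          linarith)
      (by have : (q : ℝ) < α q := hq
          linarith)
    exact ⟨s, hs, Subtype.ext (by linarith)⟩
  obtain ⟨M, hM, hMmax⟩ := hAc.exists_isMaxOn hAne continuous_id.continuousOn
  obtain ⟨m, hm, hmmin⟩ := hAc.exists_isMinOn hAne continuous_id.continuousOn
  have hmM : m ≤ M := hMmax hm
  have hβA : ∀ x ∈ {x : Icc a b | x ∈ Icc p q ∧ α x = x}, m ≤ β x ∧ β x ≤ M := by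
    rintro x ⟨hx, hx'⟩
    have h1 : β x ∈ {x : Icc a b | x ∈ Icc p q ∧ α x = x} :=
      ⟨⟨(hin x hx hx').1.le, (hin x hx hx').2.le⟩, by rw [hc, hx']⟩
    exact ⟨hmmin h1, hMmax h1⟩
  have hR : β M = m ∨ β M = M := by
    refine right_end hα hβ hc hq hM.2 hM.1.2 ?_ hm.1.1 hm.2 hmM ?_ (hβA M hM).1 (hβA M hM).2
    · intro t ht htq h
      have : t ≤ M := hMmax (show t ∈ {x : Icc a b | x ∈ Icc p q ∧ α x = x} from
        ⟨⟨hM.1.1.trans ht.le, htq⟩, h⟩)
      exact absurd ht (not_lt.mpr this)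
    · rintro t (rfl | ⟨h, h'⟩)
      · exact hex t (Or.inr (Or.inl rfl)) m hm.1 M hM.1 hm.2 hM.2
      · exact hex t (Or.inr (Or.inr ⟨h, fun h'' => absurd h''.2 (not_lt.mpr h'.le)⟩)) m hm.1 M hM.1
          hm.2 hM.2
  have hL : β m = m ∨ β m = M := by
    refine left_end hα hβ hc hp hm.2 hm.1.1 ?_ hM.1.2 hM.2 hmM ?_ (hβA m hm).1 (hβA m hm).2
    · intro t ht htp h
      have : m ≤ t := hmmin (show t ∈ {x : Icc a b | x ∈ Icc p q ∧ α x = x} from
        ⟨⟨htp, ht.le.trans hm.1.2⟩, h⟩)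
      exact absurd ht (not_lt.mpr this)
    · rintro t (rfl | ⟨h, h'⟩)
      · exact hex t (Or.inl rfl) m hm.1 M hM.1 hm.2 hM.2
      · exact hex t (Or.inr (Or.inr ⟨h, fun h'' => absurd h''.1 (not_lt.mpr h'.le)⟩)) m hm.1 M hM.1
          hm.2 hM.2
  rcases hR with hR | hR
  · rcases hL with hL | hL
    · exact ⟨m, hm.1, hm.2, by rw [hL, hL]⟩
    · exact ⟨M, hM.1, hM.2, by rw [hR, hL]⟩
  · exact ⟨M, hM.1, hM.2, by rw [hR, hR]⟩

/-- From a common fixed point of two independent words to a common periodic point. -/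
private lemma periodic_of_two {X : Type*} {h : X → X} {x y : X} {m n : ℕ} (hm : h^[m] y = x)
    (hn : h^[n] y = x) (hmn : m ≠ n) : x ∈ periodicPts h := by
  have key : ∀ {m n : ℕ}, h^[m] y = x → h^[n] y = x → m < n → x ∈ periodicPts h := by
    intro m n hm hn hmn
    refine ⟨n - m, Nat.sub_pos_of_lt hmn, ?_⟩
    show h^[n - m] x = x
    nth_rewrite 1 [← hm]
    rw [← iterate_add_apply, Nat.sub_add_cancel hmn.le, hn]
  rcases lt_or_gt_of_ne hmn with h1 | h1
  · exact key hm hn h1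
  · exact key hn hm h1

private lemma periodic_of_words {X : Type*} {f g : X → X} (hfg : Function.Commute f g)
    {k l i j : ℕ} (hdet : k * j ≠ l * i) {x : X} (h1 : f^[k] (g^[l] x) = x)
    (h2 : f^[i] (g^[j] (f^[i] (g^[j] x))) = x) : x ∈ periodicPts f ∩ periodicPts g := by
  have hw : ∀ s t u : ℕ, (fun x => f^[s] (g^[t] x))^[u] x = f^[s * u] (g^[t * u] x) := by
    intro s t u
    have hcm : Function.Commute f^[s] g^[t] := hfg.iterate_iterate s t
    have := hcm.comp_iterate u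
    have e : (fun x => f^[s] (g^[t] x)) = f^[s] ∘ g^[t] := rfl
    rw [e, this]
    simp only [Function.comp_apply, ← iterate_mul]
  have h2' : f^[2 * i] (g^[2 * j] x) = x := by
    have e1 : g^[j] (f^[i] (g^[j] x)) = f^[i] (g^[j] (g^[j] x)) :=
      ((hfg.iterate_iterate i j) _).symm
    rw [e1, ← iterate_add_apply, ← iterate_add_apply, ← two_mul, ← two_mul] at h2
    exact h2
  have A : ∀ u, f^[k * u] (g^[l * u] x) = x := by
    intro u
    rw [← hw]
    exact iterate_fixed h1 u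
  have B : ∀ u, f^[2 * i * u] (g^[2 * j * u] x) = x := by
    intro u
    rw [← hw]
    exact iterate_fixed h2' u
  constructor
  · have a1 := A (2 * j)
    have b1 := B l
    have e : 2 * j * l = l * (2 * j) := by ring
    rw [e] at b1
    refine periodic_of_two a1 b1 ?_
    intro h
    apply hdet
    have : 2 * (k * j) = 2 * (l * i) := by linarith
    omega
  · have a1 := A (2 * i)
    have b1 := B k
    rw [(hfg.iterate_iterate _ _) _] at a1 b1
    have e : 2 * i * k = k * (2 * i) := by ring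
    rw [e] at b1
    refine periodic_of_two a1 b1 ?_
    intro h
    apply hdet
    have : 2 * (k * j) = 2 * (l * i) := by linarith
    omega

private lemma cont_iter (n : ℕ) {T : Type*} [TopologicalSpace T] {F : T → C(Icc a b, Icc a b)}
    {u : T → Icc a b} (hF : Continuous F) (hu : Continuous u) :
    Continuous fun z => (F z)^[n] (u z) := by
  induction n with
  | zero => exact hu
  | succ n ih =>
    simp only [iterate_succ_apply']
    exact continuous_eval.comp (hF.prodMk ih)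

private lemma cont_word (s t : ℕ) {T : Type*} [TopologicalSpace T]
    {F G : T → C(Icc a b, Icc a b)} {u : T → Icc a b} (hF : Continuous F) (hG : Continuous G)
    (hu : Continuous u) : Continuous fun z => (F z)^[s] ((G z)^[t] (u z)) :=
  cont_iter s hF (cont_iter t hG hu)

/-- The zone condition is open. -/
private lemma isOpen_zone (k l i j : ℕ) (p q : Icc a b) :
    IsOpen {z : C(Icc a b, Icc a b) × C(Icc a b, Icc a b) |
      IsZone (z.1^[k] ∘ z.2^[l]) (z.1^[i] ∘ z.2^[j]) p q} := by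
  classical
  let A : C(Icc a b, Icc a b) × C(Icc a b, Icc a b) → Icc a b → Icc a b :=
    fun z x => z.1^[k] (z.2^[l] x)
  let B : C(Icc a b, Icc a b) × C(Icc a b, Icc a b) → Icc a b → Icc a b :=
    fun z x => z.1^[i] (z.2^[j] x)
  have hA : ∀ {T : Type} [TopologicalSpace T]
      {F : T → C(Icc a b, Icc a b) × C(Icc a b, Icc a b)} {u : T → Icc a b},
      Continuous F → Continuous u → Continuous fun z => A (F z) (u z) := by
    intro T _ F u hF hu
    exact cont_word k l (continuous_fst.comp hF) (continuous_snd.comp hF) hu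
  have hB : ∀ {T : Type} [TopologicalSpace T]
      {F : T → C(Icc a b, Icc a b) × C(Icc a b, Icc a b)} {u : T → Icc a b},
      Continuous F → Continuous u → Continuous fun z => B (F z) (u z) := by
    intro T _ F u hF hu
    exact cont_word i j (continuous_fst.comp hF) (continuous_snd.comp hF) hu
  have hle : ∀ {T : Type} [TopologicalSpace T] {u v : T → Icc a b}, Continuous u →
      Continuous v → IsClosed {w | u w ≤ v w} := fun hu hv => isClosed_le hu hv
  have hS1 : IsOpen {z : C(Icc a b, Icc a b) × C(Icc a b, Icc a b) | A z p < p} :=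
    isOpen_lt (hA continuous_id continuous_const) continuous_const
  have hS2 : IsOpen {z : C(Icc a b, Icc a b) × C(Icc a b, Icc a b) | q < A z q} :=
    isOpen_lt continuous_const (hA continuous_id continuous_const)
  -- first closed condition
  have hC1 : IsClosed (Prod.fst '' {w : (C(Icc a b, Icc a b) × C(Icc a b, Icc a b)) × Icc a b |
      w.2 ∈ Icc p q ∧ A w.1 w.2 = w.2 ∧ B w.1 w.2 ∉ Ioo p q}) := by
    apply isClosedMap_fst_of_compactSpace
    refine (isClosed_Icc.preimage continuous_snd).inter (IsClosed.inter ?_ ?_)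
    · exact isClosed_eq (hA continuous_fst continuous_snd) continuous_snd
    · exact (isOpen_Ioo.preimage (hB continuous_fst continuous_snd)).isClosed_compl
  -- second closed condition: t = p or t = q
  have hC2 : ∀ t : Icc a b, IsClosed (Prod.fst ''
      {w : (C(Icc a b, Icc a b) × C(Icc a b, Icc a b)) × (Icc a b × Icc a b) |
        w.2.1 ∈ Icc p q ∧ w.2.2 ∈ Icc p q ∧ A w.1 w.2.1 = w.2.1 ∧ A w.1 w.2.2 = w.2.2 ∧
        w.2.1 ≤ B w.1 t ∧ B w.1 t ≤ w.2.2}) := by
    intro t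
    apply isClosedMap_fst_of_compactSpace
    refine (isClosed_Icc.preimage (by fun_prop : Continuous fun w :
      (C(Icc a b, Icc a b) × C(Icc a b, Icc a b)) × (Icc a b × Icc a b) => w.2.1)).inter
      (IsClosed.inter (isClosed_Icc.preimage (by fun_prop : Continuous fun w :
      (C(Icc a b, Icc a b) × C(Icc a b, Icc a b)) × (Icc a b × Icc a b) => w.2.2))
      (IsClosed.inter ?_ (IsClosed.inter ?_ (IsClosed.inter ?_ ?_))))
    · exact isClosed_eq (hA continuous_fst (by fun_prop)) (by fun_prop)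
    · exact isClosed_eq (hA continuous_fst (by fun_prop)) (by fun_prop)
    · exact hle (u := fun w : (C(Icc a b, Icc a b) × C(Icc a b, Icc a b)) ×
        (Icc a b × Icc a b) => w.2.1) (v := fun w => B w.1 t) (by fun_prop)
        (hB continuous_fst continuous_const)
    · exact hle (u := fun w : (C(Icc a b, Icc a b) × C(Icc a b, Icc a b)) ×
        (Icc a b × Icc a b) => B w.1 t) (v := fun w => w.2.2)
        (hB continuous_fst continuous_const) (by fun_prop)
  have hC3 : IsClosed (Prod.fst ''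
      {w : (C(Icc a b, Icc a b) × C(Icc a b, Icc a b)) × (Icc a b × (Icc a b × Icc a b)) |
        w.2.1 ∈ Icc p q ∧ A w.1 w.2.1 ∉ Ioo p q ∧
        w.2.2.1 ∈ Icc p q ∧ w.2.2.2 ∈ Icc p q ∧ A w.1 w.2.2.1 = w.2.2.1 ∧
        A w.1 w.2.2.2 = w.2.2.2 ∧
        w.2.2.1 ≤ B w.1 (A w.1 w.2.1) ∧ B w.1 (A w.1 w.2.1) ≤ w.2.2.2}) := by
    apply isClosedMap_fst_of_compactSpace
    refine (isClosed_Icc.preimage (by fun_prop : Continuous fun w :
      (C(Icc a b, Icc a b) × C(Icc a b, Icc a b)) × (Icc a b × (Icc a b × Icc a b)) =>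
        w.2.1)).inter (IsClosed.inter ?_ (IsClosed.inter (isClosed_Icc.preimage
        (by fun_prop : Continuous fun w :
      (C(Icc a b, Icc a b) × C(Icc a b, Icc a b)) × (Icc a b × (Icc a b × Icc a b)) =>
        w.2.2.1)) (IsClosed.inter (isClosed_Icc.preimage (by fun_prop : Continuous fun w :
      (C(Icc a b, Icc a b) × C(Icc a b, Icc a b)) × (Icc a b × (Icc a b × Icc a b)) =>
        w.2.2.2)) (IsClosed.inter ?_ (IsClosed.inter ?_ (IsClosed.inter ?_ ?_))))))
    · exact (isOpen_Ioo.preimage (hA continuous_fst (by fun_prop))).isClosed_compl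
    · exact isClosed_eq (hA continuous_fst (by fun_prop)) (by fun_prop)
    · exact isClosed_eq (hA continuous_fst (by fun_prop)) (by fun_prop)
    · exact hle (u := fun w : (C(Icc a b, Icc a b) × C(Icc a b, Icc a b)) ×
        (Icc a b × (Icc a b × Icc a b)) => w.2.2.1) (v := fun w => B w.1 (A w.1 w.2.1))
        (by fun_prop) (hB continuous_fst (hA continuous_fst (by fun_prop)))
    · exact hle (u := fun w : (C(Icc a b, Icc a b) × C(Icc a b, Icc a b)) ×
        (Icc a b × (Icc a b × Icc a b)) => B w.1 (A w.1 w.2.1)) (v := fun w => w.2.2.2)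
        (hB continuous_fst (hA continuous_fst (by fun_prop))) (by fun_prop)
  by_cases hpq : p < q
  swap
  · convert isOpen_empty
    ext z
    exact ⟨fun h => hpq h.1, fun h => h.elim⟩
  have hO := hS1.inter (hS2.inter (hC1.isOpen_compl.inter
    ((hC2 p).isOpen_compl.inter ((hC2 q).isOpen_compl.inter hC3.isOpen_compl))))
  convert hO using 1
  ext z
  constructor
  · rintro ⟨-, h1, h2, h3, h4⟩
    refine ⟨h1, h2, ?_, ?_, ?_, ?_⟩
    · rintro ⟨⟨z', x⟩, ⟨hx, hx', hx''⟩, rfl⟩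
      exact hx'' (h3 x hx hx')
    · rintro ⟨⟨z', x, y⟩, ⟨hx, hy, hx', hy', hxy⟩, rfl⟩
      exact h4 p (Or.inl rfl) x hx y hy hx' hy' hxy
    · rintro ⟨⟨z', x, y⟩, ⟨hx, hy, hx', hy', hxy⟩, rfl⟩
      exact h4 q (Or.inr (Or.inl rfl)) x hx y hy hx' hy' hxy
    · rintro ⟨⟨z', w, x, y⟩, ⟨hw, hw', hx, hy, hx', hy', hxy⟩, rfl⟩
      exact h4 _ (Or.inr (Or.inr ⟨⟨w, hw, rfl⟩, hw'⟩)) x hx y hy hx' hy' hxy
  · rintro ⟨h1, h2, h3, h4, h5, h6⟩
    refine ⟨hpq, h1, h2, ?_, ?_⟩
    · intro x hx hx'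
      by_contra h
      exact h3 ⟨(z, x), ⟨hx, hx', h⟩, rfl⟩
    · rintro t (rfl | rfl | ⟨⟨w, hw, rfl⟩, hw'⟩) x hx y hy hx' hy' hxy
      · exact h4 ⟨(z, x, y), ⟨hx, hy, hx', hy', hxy⟩, rfl⟩
      · exact h5 ⟨(z, x, y), ⟨hx, hy, hx', hy', hxy⟩, rfl⟩
      · exact h6 ⟨(z, w, x, y), ⟨hw, hw', hx, hy, hx', hy', hxy⟩, rfl⟩

/-- Stability. -/
lemma stability (f₀ g₀ : C(Icc a b, Icc a b)) {k l i j : ℕ} {p q : Icc a b}
    (hdet : k * j ≠ l * i) (hz : IsZone (f₀^[k] ∘ g₀^[l]) (f₀^[i] ∘ g₀^[j]) p q) :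
    ∃ ε > 0, ∀ f g : C(Icc a b, Icc a b), ⇑f ∘ ⇑g = ⇑g ∘ ⇑f →
      (∀ x, |(f x : ℝ) - f₀ x| < ε) → (∀ x, |(g x : ℝ) - g₀ x| < ε) →
      ∃ x ∈ Icc p q, f^[k] (g^[l] x) = x ∧ (f^[i] ∘ g^[j])^[2] x = x ∧
        x ∈ periodicPts ⇑f ∩ periodicPts ⇑g := by
  obtain ⟨ε, hε, hball⟩ := Metric.isOpen_iff.mp (isOpen_zone k l i j p q) (f₀, g₀) hz
  refine ⟨ε / 2, by positivity, ?_⟩
  intro f g hfg hf hg
  have hd : ∀ u v : C(Icc a b, Icc a b), (∀ x, |(u x : ℝ) - v x| < ε / 2) → dist u v < ε := by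
    intro u v h
    refine lt_of_le_of_lt ((ContinuousMap.dist_le (by positivity : (0 : ℝ) ≤ ε / 2)).mpr ?_)
      (by linarith)
    intro x
    rw [Subtype.dist_eq, Real.dist_eq]
    exact (h x).le
  have hmem : (f, g) ∈ Metric.ball (f₀, g₀) ε := by
    rw [Metric.mem_ball, Prod.dist_eq]
    exact max_lt (hd f f₀ hf) (hd g g₀ hg)
  have hz' : IsZone (f^[k] ∘ g^[l]) (f^[i] ∘ g^[j]) p q := hball hmem
  have hc : Function.Commute ⇑f ⇑g := fun x => congrFun hfg x
  have hcw : ∀ x, (f^[k] ∘ g^[l]) ((f^[i] ∘ g^[j]) x) = (f^[i] ∘ g^[j]) ((f^[k] ∘ g^[l]) x) := by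
    intro x
    simp only [comp_apply]
    rw [← (hc.iterate_iterate i l) (g^[j] x), ← (hc.iterate_iterate k j) (g^[l] x),
      ← iterate_add_apply, ← iterate_add_apply, ← iterate_add_apply, ← iterate_add_apply,
      Nat.add_comm k i, Nat.add_comm l j]
  have hcα : Continuous (f^[k] ∘ g^[l]) := (f.continuous.iterate k).comp (g.continuous.iterate l)
  have hcβ : Continuous (f^[i] ∘ g^[j]) := (f.continuous.iterate i).comp (g.continuous.iterate j)
  obtain ⟨x, hx, hx1, hx2⟩ := criterion hcα hcβ hcw hz'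
  exact ⟨x, hx, hx1, hx2, periodic_of_words hc hdet hx1 hx2⟩

/-- A crossing of the diagonal from below to above. -/
private lemma crossing {α : Icc a b → Icc a b} (hα : Continuous α)
    (hfin : {x | α x = x}.Finite) {p q : Icc a b} (hpq : p < q) (hp : α p < p) (hq : q < α q) :
    ∃ z : Icc a b, α z = z ∧ p < z ∧ z < q ∧ ∃ r > 0, ∀ t : Icc a b, |(t : ℝ) - z| < r →
      (t < z → α t < t) ∧ (z < t → t < α t) := by
  have hab : a ≤ b := p.2.1.trans p.2.2
  set φ : ℝ → ℝ := fun t => IccExtend hab (fun x : Icc a b => ((α x : ℝ) - x)) t with hφ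
  have hφc : Continuous φ := by
    have : Continuous (fun x : Icc a b => ((α x : ℝ) - x)) := by fun_prop
    exact this.Icc_extend'
  have hφv : ∀ x : Icc a b, φ x = (α x : ℝ) - x := fun x => IccExtend_val hab _ x
  set S : Set ℝ := {t | t ∈ Icc (p : ℝ) q ∧ φ t < 0} with hS
  have hpS : (p : ℝ) ∈ S := by
    refine ⟨⟨le_rfl, hpq.le⟩, ?_⟩
    rw [hφv]
    have : (α p : ℝ) < p := hp
    linarith
  have hbd : BddAbove S := ⟨q, fun t ht => ht.1.2⟩
  set z : ℝ := sSup S with hz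
  have hpz : (p : ℝ) ≤ z := le_csSup hbd hpS
  have hzq : z ≤ q := csSup_le ⟨_, hpS⟩ fun t ht => ht.1.2
  have hafter : ∀ t, z < t → t ≤ q → 0 ≤ φ t := by
    intro t h1 h2
    by_contra h3
    push Not at h3
    have : t ≤ z := le_csSup hbd ⟨⟨hpz.trans h1.le, h2⟩, h3⟩
    linarith
  have hφq : 0 < φ q := by
    rw [hφv]
    have : (q : ℝ) < α q := hq
    linarith
  have hz0 : φ z ≤ 0 := by
    have h1 : z ∈ closure S := csSup_mem_closure ⟨_, hpS⟩ hbd
    have h2 : closure S ⊆ {t | φ t ≤ 0} := by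
      apply closure_minimal
      · intro t ht; exact ht.2.le
      · exact isClosed_le hφc continuous_const
    exact h2 h1
  have hzq' : z < q := by
    rcases eq_or_lt_of_le hzq with h | h
    · rw [h] at hz0; linarith
    · exact h
  have hz1 : 0 ≤ φ z := by
    have h1 : z ∈ closure (Ioc z (q : ℝ)) := by
      rw [closure_Ioc (ne_of_lt hzq')]; exact ⟨le_rfl, hzq'.le⟩
    have h2 : closure (Ioc z (q : ℝ)) ⊆ {t | 0 ≤ φ t} := by
      apply closure_minimal
      · intro t ht; exact hafter t ht.1 ht.2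
      · exact isClosed_le continuous_const hφc
    exact h2 h1
  have hz2 : φ z = 0 := le_antisymm hz0 hz1
  have hpz' : (p : ℝ) < z := by
    rcases eq_or_lt_of_le hpz with h | h
    · have := hpS.2
      rw [h, hz2] at this
      exact absurd this (lt_irrefl _)
    · exact h
  have hzm : z ∈ Icc a b := ⟨p.2.1.trans hpz, hzq.trans q.2.2⟩
  have hαz : α ⟨z, hzm⟩ = ⟨z, hzm⟩ := by
    apply Subtype.ext
    have := hφv ⟨z, hzm⟩
    simp only at this
    rw [hz2] at this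
    linarith
  -- isolation
  have hiso : ∃ r > 0, ∀ t : Icc a b, |(t : ℝ) - z| < r → α t = t → (t : ℝ) = z := by
    have h1 : ({x | α x = x} \ {⟨z, hzm⟩} : Set (Icc a b))ᶜ ∈ 𝓝 (⟨z, hzm⟩ : Icc a b) := by
      apply (hfin.subset sdiff_subset).isClosed.isOpen_compl.mem_nhds
      simp
    obtain ⟨r, hr, hr'⟩ := Metric.mem_nhds_iff.mp h1
    refine ⟨r, hr, ?_⟩
    intro t ht ht'
    by_contra hne
    have h2 : t ∈ Metric.ball (⟨z, hzm⟩ : Icc a b) r := by
      rw [Metric.mem_ball, Subtype.dist_eq, Real.dist_eq]; exact ht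
    exact hr' h2 ⟨ht', fun h => hne (congrArg Subtype.val h)⟩
  obtain ⟨r, hr, hiso⟩ := hiso
  have hnz : ∀ t : ℝ, t ∈ Icc a b → |t - z| < r → φ t = 0 → t = z := by
    intro t ht h1 h2
    refine hiso ⟨t, ht⟩ h1 ?_
    apply Subtype.ext
    have := hφv ⟨t, ht⟩
    simp only at this
    rw [h2] at this
    linarith
  refine ⟨⟨z, hzm⟩, hαz, hpz', hzq', min r (min (z - p) (q - z)),
    lt_min hr (lt_min (by linarith) (by linarith)), ?_⟩
  intro t ht
  have ht1 : |(t : ℝ) - z| < r := lt_of_lt_of_le ht (min_le_left _ _)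
  have ht2 : |(t : ℝ) - z| < z - p := lt_of_lt_of_le ht ((min_le_right _ _).trans (min_le_left _ _))
  have ht3 : |(t : ℝ) - z| < q - z :=
    lt_of_lt_of_le ht ((min_le_right _ _).trans (min_le_right _ _))
  constructor
  · intro htz
    have htz' : (t : ℝ) < z := htz
    -- a point of S close to z
    obtain ⟨s, hs, hs'⟩ := exists_lt_of_lt_csSup ⟨_, hpS⟩ (show (t : ℝ) < sSup S from htz')
    have hsz : s ≤ z := le_csSup hbd hs
    have hsne : s < z := by
      rcases eq_or_lt_of_le hsz with h | h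
      · have := hs.2
        rw [h, hz2] at this
        exact absurd this (lt_irrefl _)
      · exact h
    by_contra hcon
    push Not at hcon
    have hcon' : 0 ≤ φ t := by
      rw [hφv]
      have : (t : ℝ) ≤ α t := hcon
      linarith
    obtain ⟨u, hu, hu'⟩ := intermediate_value_Icc' hs'.le hφc.continuousOn
      (show (0 : ℝ) ∈ Icc (φ s) (φ t) from ⟨hs.2.le, hcon'⟩)
    have hu1 : u = z := by
      refine hnz u ⟨t.2.1.trans hu.1, (hu.2.trans hsz).trans hzm.2⟩ ?_ hu'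
      rw [abs_lt] at ht1 ⊢
      constructor <;> linarith [hu.1, hu.2]
    linarith [hu.2]
  · intro hzt
    have hzt' : z < (t : ℝ) := hzt
    have h1 : 0 ≤ φ t := hafter t hzt' (by rw [abs_lt] at ht3; linarith)
    have h2 : φ t ≠ 0 := fun h => absurd (hnz t t.2 ht1 h) (ne_of_gt hzt')
    have h3 : 0 < φ t := lt_of_le_of_ne h1 (Ne.symm h2)
    rw [hφv] at h3
    show (t : ℝ) < α t
    linarith

private lemma zone_of_isolated {α β : Icc a b → Icc a b} (hα : Continuous α) {z : Icc a b}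
    (haz : a < z) (hzb : (z : ℝ) < b) (hαz : α z = z) (hβz : β z = z) {r : ℝ} (hr : 0 < r)
    (h1 : ∀ t : Icc a b, |(t : ℝ) - z| < r → (t < z → α t < t) ∧ (z < t → t < α t))
    (h2 : ∀ᶠ t in 𝓝 z, β t = z → t = z) : ∃ p q, IsZone α β p q := by
  obtain ⟨r', hr', h2'⟩ := Metric.eventually_nhds_iff.mp h2
  obtain ⟨δ, hδ, hδ'⟩ := Metric.continuousAt_iff.mp hα.continuousAt (min r r') (lt_min hr hr')
  set ρ : ℝ := min (min δ (min r r')) (min (z - a) (b - z)) / 2 with hρ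
  have hm : 0 < min (min δ (min r r')) (min ((z : ℝ) - a) (b - z)) :=
    lt_min (lt_min hδ (lt_min hr hr')) (lt_min (by linarith) (by linarith))
  have hρ0 : 0 < ρ := by rw [hρ]; linarith
  have e1 : ρ < δ := by
    have : min (min δ (min r r')) (min ((z : ℝ) - a) (b - z)) ≤ δ :=
      (min_le_left _ _).trans (min_le_left _ _)
    linarith
  have e2 : ρ < min r r' := by
    have : min (min δ (min r r')) (min ((z : ℝ) - a) (b - z)) ≤ min r r' :=
      (min_le_left _ _).trans (min_le_right _ _)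
    linarith
  have e3 : ρ < z - a := by
    have : min (min δ (min r r')) (min ((z : ℝ) - a) (b - z)) ≤ z - a :=
      (min_le_right _ _).trans (min_le_left _ _)
    linarith
  have e4 : ρ < b - z := by
    have : min (min δ (min r r')) (min ((z : ℝ) - a) (b - z)) ≤ b - z :=
      (min_le_right _ _).trans (min_le_right _ _)
    linarith
  have e5 : ρ < r := lt_of_lt_of_le e2 (min_le_left _ _)
  have e6 : ρ < r' := lt_of_lt_of_le e2 (min_le_right _ _)
  let p : Icc a b := ⟨z - ρ, by constructor <;> linarith⟩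
  let q : Icc a b := ⟨z + ρ, by constructor <;> linarith⟩
  have hpv : (p : ℝ) = z - ρ := rfl
  have hqv : (q : ℝ) = z + ρ := rfl
  have hpz : p < z := by show (p : ℝ) < z; rw [hpv]; linarith
  have hzq : z < q := by show (z : ℝ) < q; rw [hqv]; linarith
  have habs : ∀ x ∈ Icc p q, |(x : ℝ) - z| ≤ ρ := by
    intro x hx
    have h3 : (p : ℝ) ≤ x := hx.1
    have h4 : (x : ℝ) ≤ q := hx.2
    rw [abs_le]
    constructor <;> linarith
  have hfix : ∀ x ∈ Icc p q, α x = x → x = z := by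
    intro x hx hx'
    have h3 := h1 x (lt_of_le_of_lt (habs x hx) e5)
    rcases lt_trichotomy x z with h | h | h
    · exact absurd (h3.1 h) (by rw [hx']; exact lt_irrefl _)
    · exact h
    · exact absurd (h3.2 h) (by rw [hx']; exact lt_irrefl _)
  have hβne : ∀ t : Icc a b, |(t : ℝ) - z| < r' → t ≠ z → β t ≠ z := by
    intro t ht hne h
    apply hne
    apply h2' _ h
    rw [Subtype.dist_eq, Real.dist_eq]
    exact ht
  have hin : ∀ t, t = p ∨ t = q ∨ (t ∈ α '' Icc p q ∧ t ∉ Ioo p q) → β t ≠ z := by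
    rintro t (rfl | rfl | ⟨⟨w, hw, rfl⟩, hw'⟩)
    · exact hβne _ (lt_of_le_of_lt (habs p ⟨le_rfl, (hpz.trans hzq).le⟩) e6) (ne_of_lt hpz)
    · exact hβne _ (lt_of_le_of_lt (habs q ⟨(hpz.trans hzq).le, le_rfl⟩) e6) (ne_of_gt hzq)
    · apply hβne
      · have h3 : dist (α w) (α z) < min r r' := by
          apply hδ'
          rw [Subtype.dist_eq, Real.dist_eq]
          exact lt_of_le_of_lt (habs w hw) e1
        rw [hαz, Subtype.dist_eq, Real.dist_eq] at h3
        exact lt_of_lt_of_le h3 (min_le_right _ _)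
      · intro h
        apply hw'
        rw [h]
        exact ⟨hpz, hzq⟩
  refine ⟨p, q, hpz.trans hzq, ?_, ?_, ?_, ?_⟩
  · exact (h1 p (lt_of_le_of_lt (habs p ⟨le_rfl, (hpz.trans hzq).le⟩) e5)).1 hpz
  · exact (h1 q (lt_of_le_of_lt (habs q ⟨(hpz.trans hzq).le, le_rfl⟩) e5)).2 hzq
  · intro x hx hx'
    rw [hfix x hx hx', hβz]
    exact ⟨hpz, hzq⟩
  · intro t ht x hx y hy hx' hy' hxy
    rw [hfix x hx hx', hfix y hy hy'] at hxy
    exact hin t ht (le_antisymm hxy.2 hxy.1)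

/-- Finite-to-one pairs. -/
private lemma exists_zone (f₀ g₀ : C(Icc a b, Icc a b)) (hfg : ⇑f₀ ∘ ⇑g₀ = ⇑g₀ ∘ ⇑f₀)
    {k l : ℕ} (hk : 0 < k) (hfin : {x | f₀^[k] (g₀^[l] x) = x}.Finite)
    (hfib : ∀ y, f₀^[k] (g₀^[l] y) = y → (⇑f₀ ⁻¹' {y}).Finite) {p₀ q₀ : Icc a b} (hpq : p₀ < q₀)
    (hp : f₀^[k] (g₀^[l] p₀) < p₀) (hq : q₀ < f₀^[k] (g₀^[l] q₀)) :
    ∃ (n : ℕ) (p q : Icc a b), 0 < n ∧ IsZone (f₀^[k] ∘ g₀^[l]) (f₀^[n] ∘ g₀^[0]) p q := by
  have hc : Function.Commute ⇑f₀ ⇑g₀ := fun x => congrFun hfg x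
  set w : Icc a b → Icc a b := fun x => f₀^[k] (g₀^[l] x) with hw
  have hwc : Continuous w := (f₀.continuous.iterate k).comp (g₀.continuous.iterate l)
  obtain ⟨z, hwz, hpz, hzq, r, hr, hcr⟩ := crossing hwc hfin hpq hp hq
  -- `f₀` permutes the fixed points of `w`
  have hwf : ∀ x, w (f₀ x) = f₀ (w x) := by
    intro x
    show f₀^[k] (g₀^[l] (f₀ x)) = f₀ (f₀^[k] (g₀^[l] x))
    have e1 : g₀^[l] (f₀ x) = f₀ (g₀^[l] x) := ((hc.iterate_right l) x).symm
    rw [e1, ← iterate_succ_apply, iterate_succ_apply']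
  have hmaps : MapsTo f₀ {x | w x = x} {x | w x = x} := by
    intro x hx
    show w (f₀ x) = f₀ x
    rw [hwf, hx]
  have hinj : Function.Injective (hmaps.restrict f₀ _ _) := by
    rintro ⟨x, hx⟩ ⟨y, hy⟩ hxy
    have hxy' : f₀ x = f₀ y := congrArg Subtype.val hxy
    have e : ∀ x, w x = f₀^[k - 1] (g₀^[l] (f₀ x)) := by
      intro x
      have e1 : g₀^[l] (f₀ x) = f₀ (g₀^[l] x) := ((hc.iterate_right l) x).symm
      rw [e1, ← iterate_succ_apply, Nat.succ_eq_add_one, Nat.sub_add_cancel hk]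
    apply Subtype.ext
    show x = y
    have hx' : w x = x := hx
    have hy' : w y = y := hy
    rw [← hx', ← hy', e, e, hxy']
  have : Finite {x | w x = x} := hfin
  obtain ⟨n, hn, hn'⟩ := hinj.mem_periodicPts ⟨z, hwz⟩
  have hfz : f₀^[n] z = z := by
    have hs : Function.Semiconj (Subtype.val : {x | w x = x} → Icc a b)
        (hmaps.restrict f₀ _ _) f₀ := fun _ => rfl
    have := (hs.iterate_right n) ⟨z, hwz⟩
    have h3 : (hmaps.restrict f₀ _ _)^[n] ⟨z, hwz⟩ = ⟨z, hwz⟩ := hn'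
    rw [h3] at this
    exact this.symm
  -- isolation in the fibres
  have hloc : ∀ m : ℕ, ∀ x, w x = x → ∀ᶠ t in 𝓝 x, f₀^[m] t = f₀^[m] x → t = x := by
    intro m
    induction m with
    | zero => intro x _; exact Eventually.of_forall fun t ht => ht
    | succ m ih =>
      intro x hx
      have hx1 : w (f₀ x) = f₀ x := by rw [hwf, hx]
      have h3 := f₀.continuous.continuousAt.eventually (ih (f₀ x) hx1)
      have h4 : ∀ᶠ t in 𝓝 x, f₀ t = f₀ x → t = x := by
        have h5 : (⇑f₀ ⁻¹' {f₀ x} \ {x})ᶜ ∈ 𝓝 x := by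
          apply ((hfib (f₀ x) hx1).subset sdiff_subset).isClosed.isOpen_compl.mem_nhds
          simp
        filter_upwards [h5] with t ht ht'
        by_contra hne
        exact ht ⟨ht', hne⟩
      filter_upwards [h3, h4] with t ht3 ht4 ht
      rw [iterate_succ_apply, iterate_succ_apply] at ht
      exact ht4 (ht3 ht)
  have hβ : ∀ᶠ t in 𝓝 z, (f₀^[n] ∘ g₀^[0]) t = z → t = z := by
    filter_upwards [hloc n z hwz] with t ht ht'
    apply ht
    rw [hfz]
    exact ht'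
  obtain ⟨p, q, hz⟩ := zone_of_isolated (α := f₀^[k] ∘ g₀^[l]) (β := f₀^[n] ∘ g₀^[0]) hwc
    (lt_of_le_of_lt p₀.2.1 hpz) (lt_of_lt_of_le hzq q₀.2.2) hwz hfz hr hcr hβ
  exact ⟨n, p, q, hn, hz⟩

lemma finitePair (f₀ g₀ : C(Icc a b, Icc a b)) (hfg : ⇑f₀ ∘ ⇑g₀ = ⇑g₀ ∘ ⇑f₀)
    {k l : ℕ} (hk : 0 < k) (hl : 0 < l) (hfin : {x | f₀^[k] (g₀^[l] x) = x}.Finite)
    (hfib : ∀ y, f₀^[k] (g₀^[l] y) = y → (⇑f₀ ⁻¹' {y}).Finite)
    (hex : ∃ p q : Icc a b, p < q ∧ f₀^[k] (g₀^[l] p) < p ∧ q < f₀^[k] (g₀^[l] q)) :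
    ∃ ε > 0, ∀ f g : C(Icc a b, Icc a b), ⇑f ∘ ⇑g = ⇑g ∘ ⇑f →
      (∀ x, |(f x : ℝ) - f₀ x| < ε) → (∀ x, |(g x : ℝ) - g₀ x| < ε) →
      (periodicPts ⇑f ∩ periodicPts ⇑g).Nonempty := by
  obtain ⟨p₀, q₀, hpq, hp, hq⟩ := hex
  obtain ⟨n, p, q, hn, hz⟩ := exists_zone f₀ g₀ hfg hk hfin hfib hpq hp hq
  obtain ⟨ε, hε, h⟩ := stability f₀ g₀ (by rw [Nat.mul_zero]; exact (Nat.mul_pos hl hn).ne) hz
  refine ⟨ε, hε, fun f g hc hf hg => ?_⟩
  obtain ⟨x, -, -, -, hx⟩ := h f g hc hf hg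
  exact ⟨x, hx⟩

private lemma cheb_mem (m : ℕ) (x : Icc (-1 : ℝ) 1) :
    (Chebyshev.T ℝ m).eval (x : ℝ) ∈ Icc (-1 : ℝ) 1 := by
  have hx : (x : ℝ) = Real.cos (Real.arccos x) := (Real.cos_arccos x.2.1 x.2.2).symm
  rw [hx, Chebyshev.T_real_cos]
  exact ⟨Real.neg_one_le_cos _, Real.cos_le_one _⟩

private noncomputable def cheb (m : ℕ) : C(Icc (-1 : ℝ) 1, Icc (-1 : ℝ) 1) :=
  ⟨fun x => ⟨(Chebyshev.T ℝ m).eval (x : ℝ), cheb_mem m x⟩, by
    apply Continuous.subtype_mk
    exact (Polynomial.continuous _).comp continuous_subtype_val⟩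

private lemma cheb_val (m : ℕ) (x : Icc (-1 : ℝ) 1) :
    ((cheb m x : Icc (-1 : ℝ) 1) : ℝ) = (Chebyshev.T ℝ m).eval (x : ℝ) := rfl

private lemma cheb_comp (m n : ℕ) (x : Icc (-1 : ℝ) 1) :
    ((cheb m (cheb n x) : Icc (-1 : ℝ) 1) : ℝ) = (Chebyshev.T ℝ (m * n : ℕ)).eval (x : ℝ) := by
  rw [cheb_val, cheb_val, Nat.cast_mul, Chebyshev.T_mul, eval_comp]

private lemma cheb_comm (m n : ℕ) : ⇑(cheb m) ∘ ⇑(cheb n) = ⇑(cheb n) ∘ ⇑(cheb m) := by
  funext x
  apply Subtype.ext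
  simp only [comp_apply]
  rw [cheb_comp, cheb_comp, Nat.mul_comm]

lemma chebyshev (m n : ℕ) (hm : 2 ≤ m) (hn : 2 ≤ n) :
    ∃ ε > 0, ∀ f g : C(Icc (-1 : ℝ) 1, Icc (-1 : ℝ) 1), ⇑f ∘ ⇑g = ⇑g ∘ ⇑f →
      (∀ x, |(f x : ℝ) - (Chebyshev.T ℝ m).eval (x : ℝ)| < ε) →
      (∀ x, |(g x : ℝ) - (Chebyshev.T ℝ n).eval (x : ℝ)| < ε) →
      (periodicPts ⇑f ∩ periodicPts ⇑g).Nonempty := by
  have hN : 4 ≤ m * n := Nat.mul_le_mul hm hn
  have hNr : (4 : ℝ) ≤ ((m * n : ℕ) : ℝ) := by exact_mod_cast hN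
  have hNpos : (0 : ℝ) < ((m * n : ℕ) : ℝ) := by linarith
  have hfin : {x : Icc (-1 : ℝ) 1 | (cheb m)^[1] ((cheb n)^[1] x) = x}.Finite := by
    have h1 : {x : ℝ | (Chebyshev.T ℝ (m * n : ℕ) - X : ℝ[X]).IsRoot x}.Finite := by
      apply Polynomial.finite_setOfPred_isRoot
      intro h0
      have h2 : (Chebyshev.T ℝ (m * n : ℕ)) = X := sub_eq_zero.mp h0
      have h3 := congrArg natDegree h2
      rw [Chebyshev.natDegree_T, natDegree_X, Int.natAbs_natCast] at h3
      omega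
    refine (h1.preimage (f := (Subtype.val : Icc (-1 : ℝ) 1 → ℝ))
      Subtype.val_injective.injOn).subset ?_
    intro x hx
    have hx' : cheb m (cheb n x) = x := hx
    show (Chebyshev.T ℝ (m * n : ℕ) - X : ℝ[X]).IsRoot (x : ℝ)
    rw [IsRoot, eval_sub, eval_X, ← cheb_comp, hx', sub_self]
  have hfib : ∀ y, (cheb m)^[1] ((cheb n)^[1] y) = y → (⇑(cheb m) ⁻¹' {y}).Finite := by
    intro y _
    have h1 : {x : ℝ | (Chebyshev.T ℝ m - C (y : ℝ) : ℝ[X]).IsRoot x}.Finite := by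
      apply Polynomial.finite_setOfPred_isRoot
      intro h0
      have h2 : (Chebyshev.T ℝ m) = C (y : ℝ) := sub_eq_zero.mp h0
      have h3 := congrArg natDegree h2
      rw [Chebyshev.natDegree_T, natDegree_C, Int.natAbs_natCast] at h3
      omega
    refine (h1.preimage (f := (Subtype.val : Icc (-1 : ℝ) 1 → ℝ))
      Subtype.val_injective.injOn).subset ?_
    intro x hx
    have hx' : cheb m x = y := hx
    show (Chebyshev.T ℝ m - C (y : ℝ) : ℝ[X]).IsRoot (x : ℝ)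
    rw [IsRoot, eval_sub, eval_C, ← cheb_val, hx', sub_self]
  have hval : ∀ (θ : ℝ) (h : Real.cos θ ∈ Icc (-1 : ℝ) 1),
      (((cheb m)^[1] ((cheb n)^[1] ⟨Real.cos θ, h⟩) : Icc (-1 : ℝ) 1) : ℝ)
        = Real.cos ((m * n : ℕ) * θ) := by
    intro θ h
    show ((cheb m (cheb n ⟨Real.cos θ, h⟩) : Icc (-1 : ℝ) 1) : ℝ) = _
    rw [cheb_comp]
    simp only
    rw [Chebyshev.T_real_cos]
    norm_cast
  have hpi := Real.pi_pos
  have hex : ∃ p q : Icc (-1 : ℝ) 1, p < q ∧ (cheb m)^[1] ((cheb n)^[1] p) < p ∧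
      q < (cheb m)^[1] ((cheb n)^[1] q) := by
    have hcm : ∀ θ : ℝ, Real.cos θ ∈ Icc (-1 : ℝ) 1 :=
      fun θ => ⟨Real.neg_one_le_cos _, Real.cos_le_one _⟩
    have e3 : 3 * Real.pi / ((m * n : ℕ) : ℝ) < Real.pi := by
      rw [div_lt_iff₀ hNpos]; nlinarith
    have e2 : 2 * Real.pi / ((m * n : ℕ) : ℝ) < 3 * Real.pi / ((m * n : ℕ) : ℝ) := by
      apply div_lt_div_of_pos_right _ hNpos
      linarith
    have e0 : 0 < 2 * Real.pi / ((m * n : ℕ) : ℝ) := by positivity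
    refine ⟨⟨Real.cos (3 * Real.pi / ((m * n : ℕ) : ℝ)), hcm _⟩,
      ⟨Real.cos (2 * Real.pi / ((m * n : ℕ) : ℝ)), hcm _⟩, ?_, ?_, ?_⟩
    · exact Real.cos_lt_cos_of_nonneg_of_le_pi e0.le e3.le e2
    · show (((cheb m)^[1] ((cheb n)^[1] _) : Icc (-1 : ℝ) 1) : ℝ) < _
      rw [hval, mul_div_cancel₀ _ hNpos.ne']
      have h1 : Real.cos (3 * Real.pi) = -1 := by
        have : 3 * Real.pi = Real.pi + 2 * Real.pi := by ring
        rw [this, Real.cos_add_two_pi, Real.cos_pi]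
      rw [h1]
      have := Real.cos_lt_cos_of_nonneg_of_le_pi (e0.trans e2).le le_rfl e3
      rw [Real.cos_pi] at this
      exact this
    · show _ < (((cheb m)^[1] ((cheb n)^[1] _) : Icc (-1 : ℝ) 1) : ℝ)
      rw [hval, mul_div_cancel₀ _ hNpos.ne', Real.cos_two_pi]
      have := Real.cos_lt_cos_of_nonneg_of_le_pi le_rfl (e2.trans e3).le e0
      rw [Real.cos_zero] at this
      exact this
  exact finitePair (cheb m) (cheb n) (cheb_comm m n) one_pos one_pos hfin hfib hex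

end Pool.Agent.MP4545.ST
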